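import Mathlib
import Pool.Agent.N865.SC.Defs
import Pool.Agent.N865.SC.Main

/-!
# The supercharacter theory of Andre is the coarsest one which contains all single-box characters
-/

set_option autoImplicit false

namespace Pool.Agent.Results.MP_1f99fc_al.AndreCoarsest

open Pool.Agent.N865.SC

/-- The theory `T` contains the single-box supercharacter of the box `(i, j)` with label `a` as an
irreducible character: the block `{χ}` belongs to the partition of the irreducible characters,
where `χ` is the positive multiple of the sum over the two-sided orbit of `y ↦ a * y i j`. -/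
def ContainsBox {n : ℕ} {F : Type} [Field F] (θ : AddChar F ℂ)
    (T : SupercharacterTheory (U n F)) (i j : Fin n) (a : F) : Prop :=
  ∃ χ : U n F → ℂ, {χ} ∈ T.X ∧
    ∃ c : ℝ, 0 < c ∧ ∀ g : U n F, χ g = c * orbitSum θ (box i j a) g

/-- Let `F` be a finite field, `θ` a nontrivial additive character of `F`, and `T = (X, K)` any
supercharacter theory of the group `U` of the upper unitriangular `n × n` matrices over `F` which
contains all single-box supercharacters as irreducible characters.  Then every block of `K` is
contained in a superclass `{g : g - 1 ∈ U (x - 1) U}` of the theory of Andre, that is, `T` is finer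
than the theory of Andre. -/
theorem result (n : ℕ) (F : Type) [Field F] [Finite F] (θ : AddChar F ℂ) (hθ : θ ≠ 1)
    (T : SupercharacterTheory (U n F))
    (hT : ∀ i j : Fin n, i < j → ∀ a : F, a ≠ 0 → ContainsBox θ T i j a) :
    ∀ B ∈ T.K, ∃ x : U n F, B ⊆ superclass x := by
  intro B hB
  have := Fintype.ofFinite F
  have := Fintype.ofFinite (U n F)
  have hne : B.Nonempty := Setoid.nonempty_of_mem_partition T.K_partition hB
  obtain ⟨x, hx⟩ := hne
  refine ⟨x, fun g hg => ?_⟩
  refine separate θ hθ fun i j hij a ha => ?_
  obtain ⟨χ, hχ, c, hc, h⟩ := hT i j hij a ha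
  have h1 := T.const {χ} hχ B hB x hx g hg
  rw [finsum_mem_singleton, finsum_mem_singleton] at h1
  have hc' : (c : ℂ) ≠ 0 := by
    exact_mod_cast hc.ne'
  have h2 : χ 1 ≠ 0 := by
    rw [h 1]
    exact mul_ne_zero hc' (orbitSum_one θ _)
  have h3 := mul_left_cancel₀ h2 h1
  rw [h x, h g] at h3
  exact mul_left_cancel₀ hc' h3

end Pool.Agent.Results.MP_1f99fc_al.AndreCoarsest
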